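import Mathlib

/-!
# Embeddability of Baire class 1 functions into a discrete space is not a better-quasi-order

For `X` the Cantor space and `Y` the discrete space of the natural numbers there is an infinite
antichain of functions of Baire class 1 from `X` to `Y` for the relation of embeddability. The
`k`-th function codes a cycle of length `k + 3`: the colour classes play the role of the edges,
and each colour class accumulates at exactly two points, the end vertices of the edge.
-/

set_option autoImplicit false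

open Topology Filter

namespace Pool.Agent.Results.MP_947ed7_lc.InfiniteAntichain

/-- `f` embeds in `g`: there are topological embeddings `σ` of `X` and `τ` of `Y` with
`g ∘ σ = τ ∘ f`. -/
def Embeds {X Y : Type} [TopologicalSpace X] [TopologicalSpace Y] (f g : X → Y) : Prop :=
  ∃ (σ : X → X) (τ : Y → Y), IsEmbedding σ ∧ IsEmbedding τ ∧ g ∘ σ = τ ∘ f

/-- `f` is of Baire class 1: the preimage of every open set is `Σ⁰₂`, that is, a countable union
of closed sets. -/
def BaireOne {X Y : Type} [TopologicalSpace X] [TopologicalSpace Y] (f : X → Y) : Prop :=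
  ∀ U : Set Y, IsOpen U → ∃ F : ℕ → Set X, (∀ n, IsClosed (F n)) ∧ f ⁻¹' U = ⋃ n, F n

/-- `f` is Borel: the preimage of every open set belongs to the Borel σ-algebra. -/
def BorelFun {X Y : Type} [TopologicalSpace X] [TopologicalSpace Y] (f : X → Y) : Prop :=
  ∀ U : Set Y, IsOpen U → @MeasurableSet X (borel X) (f ⁻¹' U)

/-- The infinite subsets of `A ⊆ ω`, given by their characteristic functions, with the topology
induced from `2 ^ ω`. -/
abbrev InfSub (A : Set ℕ) : Type := {x : ℕ → Bool // {n | x n = true}.Infinite ∧ {n | x n = true} ⊆ A}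

/-- `y` is the infinite set `x` without its least element. -/
def IsShift {A : Set ℕ} (x y : InfSub A) : Prop :=
  ∃ m, x.1 m = true ∧ (∀ k < m, x.1 k = false) ∧ y.1 = Function.update x.1 m false

/-- The relation `r` on `Q` is a better-quasi-order: there is no multi-sequence
`h : [A]^ω → Q` (`A` infinite, countable range) that is locally constant and bad. -/
def IsBqo {Q : Type} (r : Q → Q → Prop) : Prop :=
  ¬ ∃ (A : Set ℕ) (_ : A.Infinite) (h : InfSub A → Q), (Set.range h).Countable ∧
    (∀ q, IsOpen (h ⁻¹' {q})) ∧ ∀ x y, IsShift x y → ¬ r (h x) (h y)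

/-- Zero-dimensional: the clopen sets form a basis of the topology. -/
def ZeroDim (X : Type) [TopologicalSpace X] : Prop :=
  TopologicalSpace.IsTopologicalBasis {s : Set X | IsClopen s}

/-- `(X, Y)` is admissible: `X` has only finitely many limit points or `Y` is discrete. -/
def Admissible (X Y : Type) [TopologicalSpace X] [TopologicalSpace Y] : Prop :=
  {x : X | ¬ IsOpen {x}}.Finite ∨ DiscreteTopology Y

/-- Q1: for every admissible pair of zero-dimensional Polish spaces the functions of Baire class 1
are better-quasi-ordered by embeddability. -/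
def Question1 : Prop :=
  ∀ (X Y : Type) [TopologicalSpace X] [PolishSpace X] [TopologicalSpace Y] [PolishSpace Y],
    ZeroDim X → ZeroDim Y → Admissible X Y →
      IsBqo fun f g : {f : X → Y // BaireOne f} => Embeds f.1 g.1

/-- Q2: the same for all Borel functions. -/
def Question2 : Prop :=
  ∀ (X Y : Type) [TopologicalSpace X] [PolishSpace X] [TopologicalSpace Y] [PolishSpace Y],
    ZeroDim X → ZeroDim Y → Admissible X Y →
      IsBqo fun f g : {f : X → Y // BorelFun f} => Embeds f.1 g.1

/-! ### The construction -/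

/-- The characteristic function of `{i, m}`. -/
def ind (i m : ℕ) : ℕ → Bool := fun j => decide (j = i ∨ j = m)

theorem ind_inj {K i m i' m' : ℕ} (hi : i < K) (hm : K ≤ m) (hi' : i' < K) (_hm' : K ≤ m')
    (h : ind i m = ind i' m') : i = i' ∧ m = m' := by
  have h1 := congrFun h i
  have h2 := congrFun h m
  simp only [ind, true_or, or_true, decide_true] at h1 h2
  have h1' := of_decide_eq_true h1.symm
  have h2' := of_decide_eq_true h2.symm
  omega

/-- The colours: the vertex `i` of the cycle of length `K` is the end of the edges `i` and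
`i + 1 mod K`; the edge `j` has the colour `j + 1`. -/
def col (K i m : ℕ) : ℕ := if Even m then i + 1 else (i + 1) % K + 1

/-- The set of the points with a nonzero colour. -/
def N (K : ℕ) : Set (ℕ → Bool) := {x | ∃ i m, i < K ∧ K ≤ m ∧ x = ind i m}

open Classical in
/-- The function coding the cycle of length `K`. -/
noncomputable def fn (K : ℕ) (x : ℕ → Bool) : ℕ :=
  if h : ∃ p : ℕ × ℕ, p.1 < K ∧ K ≤ p.2 ∧ x = ind p.1 p.2 then col K h.choose.1 h.choose.2 else 0

theorem fn_ind {K i m : ℕ} (hi : i < K) (hm : K ≤ m) : fn K (ind i m) = col K i m := by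
  have h : ∃ p : ℕ × ℕ, p.1 < K ∧ K ≤ p.2 ∧ ind i m = ind p.1 p.2 := ⟨(i, m), hi, hm, rfl⟩
  rw [fn, dif_pos h]
  obtain ⟨h1, h2, h3⟩ := h.choose_spec
  obtain ⟨h4, h5⟩ := ind_inj hi hm h1 h2 h3
  rw [← h4, ← h5]

theorem fn_not {K : ℕ} {x : ℕ → Bool} (hx : x ∉ N K) : fn K x = 0 := by
  rw [fn, dif_neg]
  rintro ⟨p, h1, h2, h3⟩
  exact hx ⟨p.1, p.2, h1, h2, h3⟩

theorem col_pos (K i m : ℕ) : 0 < col K i m := by
  unfold col
  split <;> omega

theorem mem_N_of {K : ℕ} {x : ℕ → Bool} (hx : fn K x ≠ 0) : x ∈ N K := by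
  by_contra h
  exact hx (fn_not h)

theorem countable_N (K : ℕ) : (N K).Countable := by
  have : N K ⊆ Set.range fun p : ℕ × ℕ => ind p.1 p.2 := by
    rintro x ⟨i, m, -, -, rfl⟩
    exact ⟨(i, m), rfl⟩
  exact (Set.countable_range _).mono this

theorem continuous_coord (m : ℕ) : Continuous fun x : ℕ → Bool => x m := continuous_apply m

theorem isOpen_coord (m : ℕ) (b : Bool) : IsOpen {x : ℕ → Bool | x m = b} :=
  (isOpen_discrete ({b} : Set Bool)).preimage (continuous_coord m)

theorem isClosed_coord (m : ℕ) (b : Bool) : IsClosed {x : ℕ → Bool | x m = b} :=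
  (isClosed_discrete ({b} : Set Bool)).preimage (continuous_coord m)

theorem polish_cantor : PolishSpace (ℕ → Bool) := by
  have : PolishSpace Bool := inferInstance
  infer_instance

theorem not_countable_cantor : ¬ (Set.univ : Set (ℕ → Bool)).Countable := by
  intro h
  have h1 := h.le_aleph0
  rw [Cardinal.mk_univ] at h1
  have h2 : Cardinal.mk (ℕ → Bool) = Cardinal.continuum := by
    rw [← Cardinal.power_def]
    simp
  rw [h2] at h1
  exact absurd h1 (not_le.2 Cardinal.aleph0_lt_continuum)

theorem isGδ_N (K : ℕ) : IsGδ (N K) := by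
  have h : N K = {x | ∃ m, K ≤ m ∧ x m = true} ∩
      ({x | ∀ m, K ≤ m → ∀ m', K ≤ m' → m ≠ m' → x m = true → x m' = false} ∩
        {x | ∃ i, i < K ∧ ∀ j, j < K → x j = decide (j = i)}) := by
    ext x
    constructor
    · rintro ⟨i, m, hi, hm, rfl⟩
      refine ⟨⟨m, hm, by simp [ind]⟩, fun a ha b hb hab h1 => ?_, i, hi, fun j hj => ?_⟩
      · simp only [ind, decide_eq_true_eq, decide_eq_false_iff_not] at h1 ⊢
        omega
      · simp only [ind]
        congr 1
        simp only [eq_iff_iff]
        omega
    · rintro ⟨⟨m, hm, h1⟩, h2, i, hi, h3⟩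
      refine ⟨i, m, hi, hm, ?_⟩
      funext j
      by_cases hj : j < K
      · rw [h3 j hj]
        simp only [ind]
        congr 1
        simp only [eq_iff_iff]
        omega
      · by_cases hjm : j = m
        · subst hjm
          simp [ind, h1]
        · rw [h2 m hm j (by omega) (Ne.symm hjm) h1]
          simp only [ind]
          symm
          rw [decide_eq_false_iff_not]
          omega
  rw [h]
  have h1 : IsOpen {x : ℕ → Bool | ∃ m, K ≤ m ∧ x m = true} := by
    have : {x : ℕ → Bool | ∃ m, K ≤ m ∧ x m = true} = ⋃ m ∈ {m | K ≤ m}, {x | x m = true} := by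
      ext x; simp
    rw [this]
    exact isOpen_biUnion fun m _ => isOpen_coord m true
  have h2 : IsClosed {x : ℕ → Bool |
      ∀ m, K ≤ m → ∀ m', K ≤ m' → m ≠ m' → x m = true → x m' = false} := by
    have : {x : ℕ → Bool | ∀ m, K ≤ m → ∀ m', K ≤ m' → m ≠ m' → x m = true → x m' = false} =
        ⋂ m, ⋂ (_ : K ≤ m), ⋂ m', ⋂ (_ : K ≤ m'), ⋂ (_ : m ≠ m'),
          ({x | x m = false} ∪ {x | x m' = false}) := by
      ext x
      simp only [Set.mem_iInter, Set.mem_union, Set.mem_ofPred_eq]
      refine forall₅_congr fun m _ m' _ _ => ?_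
      cases x m <;> simp
    rw [this]
    exact isClosed_iInter fun m => isClosed_iInter fun _ => isClosed_iInter fun m' =>
      isClosed_iInter fun _ => isClosed_iInter fun _ =>
        (isClosed_coord m false).union (isClosed_coord m' false)
  have h3 : IsClosed {x : ℕ → Bool | ∃ i, i < K ∧ ∀ j, j < K → x j = decide (j = i)} := by
    have : {x : ℕ → Bool | ∃ i, i < K ∧ ∀ j, j < K → x j = decide (j = i)} =
        ⋃ i ∈ Finset.range K, ⋂ j, ⋂ (_ : j < K), {x | x j = decide (j = i)} := by
      ext x
      simp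
    rw [this]
    exact isClosed_biUnion_finset fun i _ => isClosed_iInter fun j => isClosed_iInter fun _ =>
      isClosed_coord j _
  exact h1.isGδ.inter (h2.isGδ.inter h3.isGδ)

theorem isGδ_preimage (K : ℕ) (W : Set ℕ) : IsGδ (fn K ⁻¹' W) := by
  have hsub : ∀ M ⊆ N K, IsGδ M := by
    intro M hM
    have h1 : IsGδ (N K \ M)ᶜ := ((countable_N K).mono Set.sdiff_subset).isGδ_compl
    have h2 : M = N K ∩ (N K \ M)ᶜ := by
      ext x
      simp only [Set.mem_inter_iff, Set.mem_compl_iff, Set.mem_sdiff, not_and, not_not]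
      exact ⟨fun h => ⟨hM h, fun _ => h⟩, fun h => h.2 h.1⟩
    rw [h2]
    exact (isGδ_N K).inter h1
  by_cases h0 : 0 ∈ W
  · have : fn K ⁻¹' W = (N K ∩ fn K ⁻¹' W) ∪ (N K)ᶜ := by
      ext x
      by_cases hx : x ∈ N K
      · simp [hx]
      · simp [hx, fn_not hx, h0]
    rw [this]
    exact (hsub _ Set.inter_subset_left).union (countable_N K).isGδ_compl
  · refine hsub _ fun x hx => mem_N_of fun h => h0 ?_
    rw [← h]
    exact hx

theorem baireOne_fn (K : ℕ) : BaireOne (fn K) := by
  intro U _
  have h := isGδ_preimage K Uᶜ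
  rw [isGδ_iff_eq_iInter_nat] at h
  obtain ⟨f, hf, hf2⟩ := h
  refine ⟨fun n => (f n)ᶜ, fun n => (hf n).isClosed_compl, ?_⟩
  rw [← Set.compl_iInter, ← hf2, Set.preimage_compl, compl_compl]

theorem borelFun_of_baireOne {X Y : Type} [TopologicalSpace X] [TopologicalSpace Y] {f : X → Y}
    (hf : BaireOne f) : BorelFun f := by
  intro U hU
  obtain ⟨F, hF, h⟩ := hf U hU
  rw [h]
  let _ : MeasurableSpace X := borel X
  have : BorelSpace X := ⟨rfl⟩
  exact MeasurableSet.iUnion fun n => (hF n).measurableSet

/-- A sequence of different points of `N L` which converges has a limit of the form `ind a a`,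
where `a` is the first entry of infinitely many of the points. -/
theorem limit_point {L c : ℕ} {y : ℕ → ℕ → Bool} {z : ℕ → Bool} (hy : Function.Injective y)
    (hc : ∀ n, fn L (y n) = c) (hc0 : c ≠ 0) (hz : Tendsto y atTop (𝓝 z)) :
    ∃ a < L, z = ind a a ∧ (c = a + 1 ∨ c = (a + 1) % L + 1) := by
  have h1 : ∀ n, ∃ p : ℕ × ℕ, p.1 < L ∧ L ≤ p.2 ∧ y n = ind p.1 p.2 := by
    intro n
    obtain ⟨i, m, h1, h2, h3⟩ := mem_N_of (K := L) (x := y n) (by rw [hc n]; exact hc0)
    exact ⟨(i, m), h1, h2, h3⟩
  choose p hp1 hp2 hp3 using h1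
  -- infinitely many of the first entries are equal
  obtain ⟨a, ha⟩ : ∃ a : Fin L, {n | (⟨(p n).1, hp1 n⟩ : Fin L) = a}.Infinite := by
    by_contra hcon
    push Not at hcon
    have : (Set.univ : Set ℕ) ⊆ ⋃ a : Fin L, {n | (⟨(p n).1, hp1 n⟩ : Fin L) = a} := by
      intro n _
      simp
    exact Set.infinite_univ ((Set.finite_iUnion fun a => hcon a).subset this)
  have ha' : ∀ n ∈ {n | (⟨(p n).1, hp1 n⟩ : Fin L) = a}, (p n).1 = a := fun n hn =>
    congrArg Fin.val hn
  refine ⟨a, a.2, ?_, ?_⟩
  · funext j
    -- coordinate j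
    have hj : ∀ᶠ n in atTop, y n j = z j := by
      have := (continuous_apply j).tendsto z |>.comp hz
      exact this.eventually (IsOpen.mem_nhds (isOpen_discrete {z j}) rfl)
    have hfin : {n | (⟨(p n).1, hp1 n⟩ : Fin L) = a ∧ (p n).2 = j}.Finite := by
      apply Set.Subsingleton.finite
      rintro n ⟨h1, h2⟩ m ⟨h3, h4⟩
      apply hy
      rw [hp3 n, hp3 m, ha' n h1, ha' m h3, h2, h4]
    have hinf : {n | (⟨(p n).1, hp1 n⟩ : Fin L) = a ∧ (p n).2 ≠ j}.Infinite := by
      intro hf
      apply ha
      refine (hfin.union hf).subset fun n hn => ?_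
      by_cases h : (p n).2 = j
      · exact Or.inl ⟨hn, h⟩
      · exact Or.inr ⟨hn, h⟩
    obtain ⟨n0, hn0⟩ := eventually_atTop.1 hj
    obtain ⟨n, hn, hnn⟩ := hinf.exists_gt n0
    rw [← hn0 n hnn.le, hp3 n, ha' n hn.1]
    simp only [ind, or_self]
    congr 1
    simp only [eq_iff_iff]
    have := hn.2
    constructor
    · rintro (h | h)
      · exact h
      · exact absurd h.symm this
    · exact fun h => Or.inl h
  · obtain ⟨n, hn⟩ := ha.nonempty
    have h2 := hc n
    rw [hp3 n, fn_ind (hp1 n) (hp2 n), ha' n hn] at h2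
    unfold col at h2
    split at h2
    · exact Or.inl h2.symm
    · exact Or.inr h2.symm

theorem tendsto_ind (i : ℕ) (u : ℕ → ℕ) (hu : Tendsto u atTop atTop) :
    Tendsto (fun n => ind i (u n)) atTop (𝓝 (ind i i)) := by
  rw [tendsto_pi_nhds]
  intro j
  apply tendsto_nhds_of_eventually_eq
  filter_upwards [hu.eventually_gt_atTop j] with n hn
  simp only [ind, or_self]
  congr 1
  simp only [eq_iff_iff]
  omega

theorem ind_diag_inj {a b : ℕ} (h : ind a a = ind b b) : a = b := by
  have h1 := congrFun h a
  simp only [ind, or_self, decide_true] at h1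
  exact of_decide_eq_true h1.symm

/-- The cyclic part of the argument. -/
theorem cycle_eq {K L : ℕ} [NeZero K] [NeZero L] (hK : 3 ≤ K) (e : ZMod K → ZMod L)
    (he : Function.Injective e) (h : ∀ i, e (i + 1) - e i = 1 ∨ e (i + 1) - e i = -1) :
    K = L := by
  have h2 : (2 : ZMod K) ≠ 0 := by
    intro h0
    have : ((2 : ℕ) : ZMod K) = 0 := by exact_mod_cast h0
    rw [ZMod.natCast_eq_zero_iff] at this
    exact absurd (Nat.le_of_dvd (by norm_num) this) (by omega)
  have hstep : ∀ c ∈ Set.range e, c + 1 ∈ Set.range e := by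
    rintro _ ⟨j, rfl⟩
    rcases h j with h1 | h1
    · exact ⟨j + 1, by rw [← h1]; ring⟩
    · have h3 := h (j - 1)
      rw [sub_add_cancel] at h3
      rcases h3 with h3 | h3
      · exfalso
        have : e (j + 1) = e (j - 1) := by
          have h4 : e (j + 1) = e j - 1 := by
            rw [sub_eq_iff_eq_add] at h1
            rw [h1]; ring
          have h5 : e (j - 1) = e j - 1 := by
            rw [← h3]; ring
          rw [h4, h5]
        have h6 := he this
        apply h2
        have h7 : (j + 1) - (j - 1) = 0 := by rw [h6]; ring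
        rw [← h7]; ring
      · exact ⟨j - 1, by
          have h5 : e (j - 1) = e j + 1 := by
            have : e j = e (j - 1) + -1 := by rw [← h3]; ring
            rw [this]; ring
          exact h5⟩
  have hall : ∀ n : ℕ, e 0 + n ∈ Set.range e := by
    intro n
    induction n with
    | zero => exact ⟨0, by simp⟩
    | succ n ih =>
      have := hstep _ ih
      rwa [add_assoc, ← Nat.cast_succ] at this
  have hsurj : Function.Surjective e := by
    intro c
    have := hall (c - e 0).val
    rwa [ZMod.natCast_zmod_val, add_sub_cancel] at this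
  have := Nat.card_congr (Equiv.ofBijective e ⟨he, hsurj⟩)
  rwa [Nat.card_zmod, Nat.card_zmod] at this

theorem antichain {K L : ℕ} (hK : 3 ≤ K) (hL : 3 ≤ L) (h : Embeds (fn K) (fn L)) : K = L := by
  have : NeZero K := ⟨by omega⟩
  have : NeZero L := ⟨by omega⟩
  obtain ⟨σ, τ, hσ, hτ, hστ⟩ := h
  have hcomm : ∀ x, fn L (σ x) = τ (fn K x) := fun x => congrFun hστ x
  -- the default colour is preserved
  have hτ0 : τ 0 = 0 := by
    by_contra h0
    have h1 : σ '' (N K)ᶜ ⊆ N L := by
      rintro _ ⟨x, hx, rfl⟩
      apply mem_N_of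
      rw [hcomm, fn_not hx]
      exact h0
    have h2 : (N K)ᶜ.Countable :=
      Set.countable_of_injective_of_countable_image hσ.injective.injOn ((countable_N L).mono h1)
    have h3 : (Set.univ : Set (ℕ → Bool)).Countable := by
      rw [← Set.compl_union_self (N K)]
      exact h2.union (countable_N K)
    exact not_countable_cantor h3
  have hτpos : ∀ c, c ≠ 0 → τ c ≠ 0 := by
    intro c hc h0
    apply hc
    apply hτ.injective
    rw [h0, hτ0]
  have hlim : ∀ i < K, ∀ u : ℕ → ℕ, StrictMono u → (∀ n, K ≤ u n) → ∀ c, c ≠ 0 →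
      (∀ n, col K i (u n) = c) →
      ∃ a < L, σ (ind i i) = ind a a ∧ (τ c = a + 1 ∨ τ c = (a + 1) % L + 1) := by
    intro i hi u hu huK c hc0 hc
    refine limit_point (y := fun n => σ (ind i (u n))) ?_ ?_ (hτpos c hc0) ?_
    · intro n m hnm
      exact hu.injective (ind_inj hi (huK n) hi (huK m) (hσ.injective hnm)).2
    · intro n
      rw [hcomm, fn_ind hi (huK n), hc n]
    · exact (hσ.continuous.tendsto _).comp (tendsto_ind i u hu.tendsto_atTop)
  have hvert : ∀ i < K, ∃ a < L, (τ (i + 1) = a + 1 ∨ τ (i + 1) = (a + 1) % L + 1) ∧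
      (τ ((i + 1) % K + 1) = a + 1 ∨ τ ((i + 1) % K + 1) = (a + 1) % L + 1) := by
    intro i hi
    obtain ⟨a, ha, ha1, ha2⟩ := hlim i hi (fun n => 2 * (n + K)) (fun n m h => by
      change 2 * (n + K) < 2 * (m + K); omega) (fun n => by change K ≤ 2 * (n + K); omega) (i + 1)
      (by omega) (fun n => by
        unfold col
        rw [if_pos (even_two_mul _)])
    obtain ⟨b, hb, hb1, hb2⟩ := hlim i hi (fun n => 2 * (n + K) + 1) (fun n m h => by
      change 2 * (n + K) + 1 < 2 * (m + K) + 1; omega)
      (fun n => by change K ≤ 2 * (n + K) + 1; omega) ((i + 1) % K + 1)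
      (by omega) (fun n => by
        unfold col
        rw [if_neg (by rw [Nat.not_even_iff_odd]; exact odd_two_mul_add_one _)])
    have hab : a = b := ind_diag_inj (ha1.symm.trans hb1)
    subst hab
    exact ⟨a, ha, ha2, hb2⟩
  -- the map on the edges
  let e : ZMod K → ZMod L := fun j => ((τ (j.val + 1) - 1 : ℕ) : ZMod L)
  have hval : ∀ j : ZMod K, τ (j.val + 1) - 1 < L ∧ τ (j.val + 1) ≠ 0 := by
    intro j
    obtain ⟨a, ha, h1, -⟩ := hvert j.val (ZMod.val_lt j)
    have h2 := Nat.mod_lt (a + 1) (show 0 < L by omega)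
    refine ⟨by omega, hτpos _ (by omega)⟩
  have he : Function.Injective e := by
    intro i j hij
    have h1 := congrArg ZMod.val hij
    simp only [e, ZMod.val_natCast, Nat.mod_eq_of_lt (hval i).1, Nat.mod_eq_of_lt (hval j).1] at h1
    have h2 := (hval i).2
    have h3 := (hval j).2
    have h4 : τ (i.val + 1) = τ (j.val + 1) := by omega
    have h5 := hτ.injective h4
    exact ZMod.val_injective K (by omega)
  refine cycle_eq hK e he fun i => ?_
  have hi1 : (i + 1).val = (i.val + 1) % K := by
    rw [ZMod.val_add]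
    have : (1 : ZMod K).val = 1 := by
      have : Fact (1 < K) := ⟨by omega⟩
      exact ZMod.val_one K
    rw [this]
  obtain ⟨a, ha, h1, h2⟩ := hvert i.val (ZMod.val_lt i)
  have hne : e (i + 1) ≠ e i := by
    intro h
    have := he h
    rw [add_eq_left] at this
    have h1 : (1 : ZMod K).val = 1 := by
      have : Fact (1 < K) := ⟨by omega⟩
      exact ZMod.val_one K
    rw [this, ZMod.val_zero] at h1
    omega
  have hcast : (((a + 1) % L : ℕ) : ZMod L) = (a : ZMod L) + 1 := by
    rw [ZMod.natCast_mod]
    push_cast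
    ring
  have h1' : e i = a ∨ e i = (a : ZMod L) + 1 := by
    rcases h1 with h | h
    · left
      simp only [e]
      rw [h]
      simp
    · right
      simp only [e]
      rw [h, ← hcast]
      simp
  have h2' : e (i + 1) = a ∨ e (i + 1) = (a : ZMod L) + 1 := by
    rcases h2 with h | h
    · left
      simp only [e]
      rw [hi1, h]
      simp
    · right
      simp only [e]
      rw [hi1, h, ← hcast]
      simp
  rcases h1' with h1' | h1' <;> rcases h2' with h2' | h2'
  · exact absurd (h2'.trans h1'.symm) hne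
  · left
    rw [h1', h2']; ring
  · right
    rw [h1', h2']; ring
  · exact absurd (h2'.trans h1'.symm) hne

/-- The least element of an infinite set. -/
noncomputable def mn {A : Set ℕ} (x : InfSub A) : ℕ := sInf {n | x.1 n = true}

theorem mn_spec {A : Set ℕ} (x : InfSub A) : x.1 (mn x) = true :=
  Nat.sInf_mem (s := {n | x.1 n = true}) x.2.1.nonempty

theorem mn_min {A : Set ℕ} (x : InfSub A) {k : ℕ} (hk : k < mn x) : x.1 k = false := by
  have := Nat.notMem_of_lt_sInf (s := {n | x.1 n = true}) hk
  simpa using this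

theorem isOpen_mn {A : Set ℕ} (n : ℕ) : IsOpen {x : InfSub A | mn x = n} := by
  have : {x : InfSub A | mn x = n} =
      Subtype.val ⁻¹' ({x : ℕ → Bool | x n = true} ∩ ⋂ k ∈ Finset.range n, {x | x k = false}) := by
    ext x
    simp only [Set.mem_ofPred_eq, Set.mem_preimage, Set.mem_inter_iff, Set.mem_iInter,
      Finset.mem_range]
    constructor
    · rintro rfl
      exact ⟨mn_spec x, fun k hk => mn_min x hk⟩
    · rintro ⟨h1, h2⟩
      apply le_antisymm (Nat.sInf_le h1)
      by_contra h
      push Not at h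
      have := h2 _ h
      change x.1 (mn x) = false at this
      rw [mn_spec] at this
      exact absurd this (by simp)
  rw [this]
  exact ((isOpen_coord n true).inter
    (isOpen_biInter_finset fun k _ => isOpen_coord k false)).preimage continuous_subtype_val

/-- If a quasi-order has an infinite antichain then it is not a better-quasi-order. -/
theorem not_isBqo {Q : Type} (r : Q → Q → Prop) (f : ℕ → Q) (hf : ∀ k l, k ≠ l → ¬ r (f k) (f l)) :
    ¬ IsBqo r := by
  intro h
  apply h
  refine ⟨Set.univ, Set.infinite_univ, fun x => f (mn x), ?_, ?_, ?_⟩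
  · exact (Set.countable_range f).mono (Set.range_subset_iff.2 fun x => Set.mem_range_self (mn x))
  · intro q
    have : (fun x : InfSub Set.univ => f (mn x)) ⁻¹' {q} =
        ⋃ n ∈ {n | f n = q}, {x | mn x = n} := by
      ext x
      simp
    rw [this]
    exact isOpen_biUnion fun n _ => isOpen_mn n
  · rintro x y ⟨m, hm, hm2, hy⟩ hr
    refine hf (mn x) (mn y) ?_ hr
    intro hxy
    have h1 : mn x = m := by
      apply le_antisymm (Nat.sInf_le hm)
      by_contra h
      push Not at h
      have := hm2 _ h
      change x.1 (mn x) = false at this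
      rw [mn_spec] at this
      exact absurd this (by simp)
    have h2 := mn_spec y
    rw [← hxy, h1, hy, Function.update_self] at h2
    exact absurd h2 (by simp)

theorem zeroDim_cantor : ZeroDim (ℕ → Bool) := loc_compact_Haus_tot_disc_of_zero_dim

theorem zeroDim_nat : ZeroDim ℕ := loc_compact_Haus_tot_disc_of_zero_dim

/-- There is an infinite antichain of functions of Baire class 1 from the Cantor space to the
discrete space `ω` for embeddability; so the answers to both questions are negative. -/
theorem result :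
    (∃ f : ℕ → (ℕ → Bool) → ℕ, (∀ k, BaireOne (f k)) ∧ ∀ k l, k ≠ l → ¬ Embeds (f k) (f l)) ∧
    ¬ Question1 ∧ ¬ Question2 := by
  have hanti : ∀ k l, k ≠ l → ¬ Embeds (fn (k + 3)) (fn (l + 3)) := by
    intro k l hkl h
    exact hkl (by have := antichain (by omega) (by omega) h; omega)
  have := polish_cantor
  refine ⟨⟨fun k => fn (k + 3), fun k => baireOne_fn _, hanti⟩, fun h => ?_, fun h => ?_⟩
  · refine not_isBqo _ (fun k => ⟨fn (k + 3), baireOne_fn _⟩) ?_
      (h (ℕ → Bool) ℕ zeroDim_cantor zeroDim_nat (Or.inr inferInstance))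
    exact hanti
  · refine not_isBqo _ (fun k => ⟨fn (k + 3), borelFun_of_baireOne (baireOne_fn _)⟩) ?_
      (h (ℕ → Bool) ℕ zeroDim_cantor zeroDim_nat (Or.inr inferInstance))
    exact hanti

end Pool.Agent.Results.MP_947ed7_lc.InfiniteAntichain
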